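import Mathlib
import Pool.Agent.L7h38.OS.Defs

/-!
# The partition function at `s = 0` counts symmetric alternating sign matrices
-/

set_option autoImplicit false

namespace Pool.Agent.L7h11.OS

open Pool.Agent.L7h38.OS

/-- Matrices indexed by the natural numbers. -/
abbrev Mat := ℕ → ℕ → ℤ

/-- The symmetric matrix with the entry `a` at `(i, j)` and `(j, i)`. -/
def E (i j : ℕ) (a : ℤ) : Mat := fun x y => if (x = i ∧ y = j) ∨ (x = j ∧ y = i) then a else 0

/-- Partial row sums. -/
def P (A : Mat) (i j : ℕ) : ℤ := ∑ l ∈ Finset.range j, A i l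

theorem P_succ (A : Mat) (i j : ℕ) : P A i (j + 1) = P A i j + A i j := by
  simp [P, Finset.sum_range_succ]

theorem P_zero (A : Mat) (i : ℕ) : P A i 0 = 0 := by simp [P]

theorem P_sub (A B : Mat) (i j : ℕ) : P (A - B) i j = P A i j - P B i j := by
  simp [P, Finset.sum_sub_distrib]

theorem P_add (A B : Mat) (i j : ℕ) : P (A + B) i j = P A i j + P B i j := by
  simp [P, Finset.sum_add_distrib]

theorem P_const (A : Mat) (i j₀ j : ℕ) (h : ∀ l, j₀ ≤ l → A i l = 0) (hj : j₀ ≤ j) :
    P A i j = P A i j₀ := by
  induction j, hj using Nat.le_induction with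
  | base => rfl
  | succ j hj ih => rw [P_succ, ih, h j hj, add_zero]

theorem P_E {k m : ℕ} (hkm : k ≠ m) (a : ℤ) (i j : ℕ) :
    P (E k m a) i j = (if i = k ∧ m < j then a else 0) + (if i = m ∧ k < j then a else 0) := by
  induction j with
  | zero => simp [P]
  | succ j ih =>
    rw [P_succ, ih]
    unfold E
    by_cases h1 : i = k
    · by_cases h2 : i = m
      · exact absurd (h1.symm.trans h2) hkm
      · simp only [h1, hkm, true_and, false_and, or_false, if_false, add_zero]
        rcases lt_trichotomy m j with h | h | h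
        · rw [if_pos h, if_neg (by omega), if_pos (by omega), add_zero]
        · rw [if_neg (by omega), if_pos (by omega), if_pos (by omega), zero_add]
        · rw [if_neg (by omega), if_neg (by omega), if_neg (by omega), zero_add]
    · by_cases h2 : i = m
      · have hmk : ¬ m = k := fun h => hkm h.symm
        simp only [h2, hmk, true_and, false_and, false_or, if_false, zero_add]
        rcases lt_trichotomy k j with h | h | h
        · rw [if_pos h, if_neg (by omega), if_pos (by omega), add_zero]
        · rw [if_neg (by omega), if_pos (by omega), if_pos (by omega), zero_add]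
        · rw [if_neg (by omega), if_neg (by omega), if_neg (by omega), zero_add]
      · simp [h1, h2]

theorem P_D (m : ℕ) (a : ℤ) (i j : ℕ) :
    P (E m m a) i j = if i = m ∧ m < j then a else 0 := by
  induction j with
  | zero => simp [P]
  | succ j ih =>
    rw [P_succ, ih]
    unfold E
    by_cases h1 : i = m
    · simp only [h1, true_and, or_self]
      rcases lt_trichotomy m j with h | h | h
      · rw [if_pos h, if_neg (by omega), if_pos (by omega), add_zero]
      · rw [if_neg (by omega), if_pos (by omega), if_pos (by omega), zero_add]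
      · rw [if_neg (by omega), if_neg (by omega), if_neg (by omega), zero_add]
    · simp [h1]

/-- Symmetric matrices supported in the first `m` rows and columns and the first `k` entries of
row and column `m`, with the states of the lines. -/
structure Cond (m k : ℕ) (σ : St) (A : Mat) : Prop where
  sym : ∀ i j, A i j = A j i
  sup : ∀ i j, A i j ≠ 0 → (i < m ∧ j < m) ∨ (i < k ∧ j = m) ∨ (i = m ∧ j < k)
  par : ∀ i j, P A i j = 0 ∨ P A i j = 1
  row : ∀ i, i < m → P A i (m + 1) = if σ i = true then 0 else 1
  las : P A m (m + 1) = if σ m = true then 1 else 0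
  big : ∀ i, m < i → σ i = false

/-- Symmetric matrices supported in the first `m` rows and columns. -/
structure Full (m : ℕ) (σ : St) (A : Mat) : Prop where
  sym : ∀ i j, A i j = A j i
  sup : ∀ i j, A i j ≠ 0 → (i < m ∧ j < m)
  par : ∀ i j, P A i j = 0 ∨ P A i j = 1
  row : ∀ i, i < m → P A i m = if σ i = true then 0 else 1
  big : ∀ i, m ≤ i → σ i = false

theorem full_iff (m : ℕ) (σ : St) (A : Mat) : Full m σ A ↔ Cond m 0 σ A := by
  constructor
  · intro h
    have h0 : ∀ i j, m ≤ j → A i j = 0 := by
      intro i j hj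
      by_contra hne
      have := (h.sup i j hne).2
      omega
    refine ⟨h.sym, fun i j hij => Or.inl (h.sup i j hij), h.par, ?_, ?_, ?_⟩
    · intro i hi
      rw [P_succ, h0 i m le_rfl, add_zero, h.row i hi]
    · rw [h.big m le_rfl]
      have : ∀ l, 0 ≤ l → A m l = 0 := by
        intro l _
        rw [h.sym, h0 l m le_rfl]
      rw [P_const A m 0 (m + 1) this (Nat.zero_le _), P_zero]
      simp
    · intro i hi
      exact h.big i hi.le
  · intro h
    have h0 : ∀ i j, m ≤ j → A i j = 0 := by
      intro i j hj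
      by_contra hne
      rcases h.sup i j hne with h' | h' | h' <;> omega
    refine ⟨h.sym, ?_, h.par, ?_, ?_⟩
    · intro i j hij
      rcases h.sup i j hij with h' | h' | h' <;> omega
    · intro i hi
      have := h.row i hi
      rwa [P_succ, h0 i m le_rfl, add_zero] at this
    · intro i hi
      rcases hi.eq_or_lt with rfl | hlt
      · have h1 := h.las
        have : ∀ l, 0 ≤ l → A m l = 0 := by
          intro l _
          rw [h.sym, h0 l m le_rfl]
        rw [P_const A m 0 (m + 1) this (Nat.zero_le _), P_zero] at h1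
        by_contra hne
        rw [Bool.not_eq_false] at hne
        rw [hne] at h1
        simp at h1
      · exact h.big i hlt

/-- The sign of the new entry. -/
def sg (b : Bool) : ℤ := if b = true then 1 else -1

theorem sg_ne (b : Bool) : sg b ≠ 0 := by cases b <;> simp [sg]

theorem step_fwd {m k : ℕ} (hk : k < m) {σ : St} {A : Mat} (h : Cond m (k + 1) σ A) :
    Cond m k σ A ∨ (σ k ≠ σ m ∧ Cond m k (fun x => σ (Equiv.swap k m x)) (A - E k m (sg (σ m)))) := by
  have hm0 : ∀ l, k + 1 ≤ l → A m l = 0 := by
    intro l hl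
    by_contra hne
    rcases h.sup m l hne with h' | h' | h' <;> omega
  have hk0 : ∀ l, m + 1 ≤ l → A k l = 0 := by
    intro l hl
    by_contra hne
    rcases h.sup k l hne with h' | h' | h' <;> omega
  have e1 : P A m (m + 1) = P A m k + A m k := by
    rw [P_const A m (k + 1) (m + 1) hm0 (by omega), P_succ]
  have e2 : P A k (m + 1) = P A k m + A k m := P_succ _ _ _
  have hs : A m k = A k m := h.sym _ _
  by_cases hx : A k m = 0
  · left
    refine ⟨h.sym, ?_, h.par, h.row, h.las, h.big⟩
    intro i j hij
    rcases h.sup i j hij with h' | h' | h'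
    · exact Or.inl h'
    · right; left
      refine ⟨?_, h'.2⟩
      rcases Nat.lt_succ_iff_lt_or_eq.1 h'.1 with h'' | h''
      · exact h''
      · exact absurd (by rw [h'', h'.2]; exact hx) hij
    · right; right
      refine ⟨h'.1, ?_⟩
      rcases Nat.lt_succ_iff_lt_or_eq.1 h'.2 with h'' | h''
      · exact h''
      · exact absurd (by rw [h'', h'.1, hs]; exact hx) hij
  · right
    have r1 := h.las
    have r2 := h.row k hk
    have p1 := h.par m k
    have p2 := h.par k m
    rw [e1, hs] at r1
    rw [e2] at r2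
    have key : σ k ≠ σ m ∧ A k m = sg (σ m) ∧ P A m k = (if σ k = true then 1 else 0) ∧
        P A k m = (if σ m = true then 0 else 1) := by
      cases hσk : σ k <;> cases hσm : σ m <;> simp [hσk, hσm, sg] at r1 r2 ⊢ <;>
        rcases p1 with p1 | p1 <;> rcases p2 with p2 | p2 <;> rw [p1] at r1 <;> rw [p2] at r2 <;>
        omega
    obtain ⟨k1, k2, k3, k4⟩ := key
    refine ⟨k1, ?_⟩
    have hkm : k ≠ m := hk.ne
    refine ⟨?_, ?_, ?_, ?_, ?_, ?_⟩
    · intro i j
      simp only [Pi.sub_apply]
      rw [h.sym i j]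
      congr 1
      unfold E
      by_cases hc : (i = k ∧ j = m) ∨ (i = m ∧ j = k)
      · rw [if_pos hc, if_pos (by tauto)]
      · rw [if_neg hc, if_neg (by tauto)]
    · intro i j hij
      simp only [Pi.sub_apply] at hij
      unfold E at hij
      by_cases hc : (i = k ∧ j = m) ∨ (i = m ∧ j = k)
      · exfalso
        apply hij
        rw [if_pos hc]
        rcases hc with ⟨rfl, rfl⟩ | ⟨rfl, rfl⟩
        · rw [k2, sub_self]
        · rw [hs, k2, sub_self]
      · rw [if_neg hc, sub_zero] at hij
        rcases h.sup i j hij with h' | h' | h'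
        · exact Or.inl h'
        · right; left; omega
        · right; right; omega
    · intro i j
      rw [P_sub, P_E hkm]
      by_cases h1 : i = k
      · subst h1
        rw [if_neg (show ¬ (i = m ∧ i < j) from fun hh => hkm hh.1), add_zero]
        by_cases h2 : m < j
        · rw [if_pos ⟨rfl, h2⟩, P_const A i (m + 1) j hk0 h2, e2, k2, k4]
          cases σ m <;> simp [sg]
        · rw [if_neg (fun hh => h2 hh.2), sub_zero]
          exact h.par _ _
      · rw [if_neg (fun hh => h1 hh.1), zero_add]
        by_cases h2 : i = m ∧ k < j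
        · rw [if_pos h2, h2.1, P_const A m (k + 1) j hm0 h2.2, P_succ, hs, k2, k3]
          cases σ k <;> cases σ m <;> simp [sg]
        · rw [if_neg h2, sub_zero]
          exact h.par _ _
    · intro i hi
      rw [P_sub, P_E hkm]
      have h3 : ¬ (i = m ∧ k < m + 1) := fun hh => by omega
      rw [if_neg h3, add_zero]
      by_cases h1 : i = k
      · subst h1
        rw [if_pos ⟨rfl, by omega⟩, e2, k2, k4]
        simp only [Equiv.swap_apply_left]
        cases σ m <;> simp [sg]
      · rw [if_neg (fun hh => h1 hh.1), sub_zero, h.row i hi]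
        simp only [Equiv.swap_apply_of_ne_of_ne h1 hi.ne]
    · rw [P_sub, P_E hkm]
      rw [if_neg (show ¬ (m = k ∧ m < m + 1) from fun hh => hkm hh.1.symm), zero_add,
        if_pos ⟨rfl, by omega⟩, e1, hs, k2, k3]
      simp only [Equiv.swap_apply_right]
      cases σ k <;> cases σ m <;> simp [sg]
    · intro i hi
      simp only [Equiv.swap_apply_of_ne_of_ne (show i ≠ k by omega) (show i ≠ m by omega)]
      exact h.big i hi

theorem E_ne {k m : ℕ} (a : ℤ) {i j : ℕ} (h : E k m a i j ≠ 0) :
    (i = k ∧ j = m) ∨ (i = m ∧ j = k) := by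
  unfold E at h
  by_contra hc
  rw [if_neg hc] at h
  exact h rfl

theorem E_symm (k m : ℕ) (a : ℤ) (i j : ℕ) : E k m a i j = E k m a j i := by
  unfold E
  by_cases hc : (i = k ∧ j = m) ∨ (i = m ∧ j = k)
  · rw [if_pos hc, if_pos (by tauto)]
  · rw [if_neg hc, if_neg (by tauto)]

theorem step_bwd {m k : ℕ} (hk : k < m) {σ : St} {B : Mat} (hσ : σ k ≠ σ m)
    (h : Cond m k (fun x => σ (Equiv.swap k m x)) B) :
    Cond m (k + 1) σ (B + E k m (sg (σ m))) := by
  have hkm : k ≠ m := hk.ne
  have hm0 : ∀ l, k ≤ l → B m l = 0 := by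
    intro l hl
    by_contra hne
    rcases h.sup m l hne with h' | h' | h' <;> omega
  have hk0 : ∀ l, m ≤ l → B k l = 0 := by
    intro l hl
    by_contra hne
    rcases h.sup k l hne with h' | h' | h' <;> omega
  have r1 := h.las
  have r2 := h.row k hk
  simp only [Equiv.swap_apply_right] at r1
  simp only [Equiv.swap_apply_left] at r2
  rw [P_const B m k (m + 1) hm0 (by omega)] at r1
  rw [P_const B k m (m + 1) hk0 (by omega)] at r2
  refine ⟨?_, ?_, ?_, ?_, ?_, ?_⟩
  · intro i j
    simp only [Pi.add_apply]
    rw [h.sym i j, E_symm]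
  · intro i j hij
    simp only [Pi.add_apply] at hij
    by_cases hc : E k m (sg (σ m)) i j = 0
    · rw [hc, add_zero] at hij
      rcases h.sup i j hij with h' | h' | h'
      · exact Or.inl h'
      · right; left; omega
      · right; right; omega
    · rcases E_ne _ hc with h' | h'
      · right; left; omega
      · right; right; omega
  · intro i j
    rw [P_add, P_E hkm]
    by_cases h1 : i = k
    · subst h1
      rw [if_neg (show ¬ (i = m ∧ i < j) from fun hh => hkm hh.1), add_zero]
      by_cases h2 : m < j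
      · rw [if_pos ⟨rfl, h2⟩, P_const B i m j hk0 h2.le, r2]
        revert hσ
        cases σ i <;> cases σ m <;> simp [sg]
      · rw [if_neg (fun hh => h2 hh.2), add_zero]
        exact h.par _ _
    · rw [if_neg (fun hh => h1 hh.1), zero_add]
      by_cases h2 : i = m ∧ k < j
      · rw [if_pos h2, h2.1, P_const B m k j hm0 h2.2.le, r1]
        revert hσ
        cases σ k <;> cases σ m <;> simp [sg]
      · rw [if_neg h2, add_zero]
        exact h.par _ _
  · intro i hi
    rw [P_add, P_E hkm]
    have h3 : ¬ (i = m ∧ k < m + 1) := fun hh => by omega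
    rw [if_neg h3, add_zero]
    by_cases h1 : i = k
    · subst h1
      rw [if_pos ⟨rfl, by omega⟩, P_const B i m (m + 1) hk0 (by omega), r2]
      revert hσ
      cases σ i <;> cases σ m <;> simp [sg]
    · have := h.row i hi
      simp only [Equiv.swap_apply_of_ne_of_ne h1 hi.ne] at this
      rw [if_neg (fun hh => h1 hh.1), add_zero, this]
  · rw [P_add, P_E hkm, P_const B m k (m + 1) hm0 (by omega), r1,
      if_neg (show ¬ (m = k ∧ m < m + 1) from fun hh => hkm hh.1.symm), zero_add,
      if_pos (show m = m ∧ k < m + 1 from ⟨rfl, by omega⟩)]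
    revert hσ
    cases σ k <;> cases σ m <;> simp [sg]
  · intro i hi
    have := h.big i hi
    simpa only [Equiv.swap_apply_of_ne_of_ne (show i ≠ k by omega) (show i ≠ m by omega)]
      using this

theorem cond_mono {m k : ℕ} {σ : St} {A : Mat} (h : Cond m k σ A) : Cond m (k + 1) σ A := by
  refine ⟨h.sym, ?_, h.par, h.row, h.las, h.big⟩
  intro i j hij
  rcases h.sup i j hij with h' | h' | h'
  · exact Or.inl h'
  · right; left; omega
  · right; right; omega

theorem step_iff {m k : ℕ} (hk : k < m) {σ : St} {A : Mat} :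
    Cond m (k + 1) σ A ↔ Cond m k σ A ∨
      (σ k ≠ σ m ∧ Cond m k (fun x => σ (Equiv.swap k m x)) (A - E k m (sg (σ m)))) := by
  refine ⟨step_fwd hk, ?_⟩
  rintro (h | ⟨h1, h2⟩)
  · exact cond_mono h
  · have := step_bwd hk h1 h2
    rwa [sub_add_cancel] at this

/-- The diagonal step. -/
theorem diag_fwd {m : ℕ} {σ : St} {A : Mat} (h : Full (m + 1) σ A) :
    Cond m m (Function.update σ m (!σ m)) A ∨ Cond m m σ (A - E m m (- sg (σ m))) := by
  have h0 : ∀ i l, m + 1 ≤ l → A i l = 0 := by
    intro i l hl
    by_contra hne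
    have := (h.sup i l hne).2
    omega
  have h0' : ∀ l, m + 1 ≤ l → A m l = 0 := fun l hl => h0 m l hl
  have e1 : P A m (m + 1) = P A m m + A m m := P_succ _ _ _
  have r1 := h.row m (Nat.lt_succ_self m)
  have p1 := h.par m m
  rw [e1] at r1
  by_cases hx : A m m = 0
  · left
    refine ⟨h.sym, ?_, h.par, ?_, ?_, ?_⟩
    · intro i j hij
      have h1 := h.sup i j hij
      have h2 : ¬ (i = m ∧ j = m) := by
        rintro ⟨rfl, rfl⟩
        exact hij hx
      omega
    · intro i hi
      rw [Function.update_of_ne hi.ne]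
      exact h.row i (by omega)
    · rw [Function.update_self, e1, r1]
      cases σ m <;> simp
    · intro i hi
      rw [Function.update_of_ne hi.ne']
      exact h.big i (by omega)
  · right
    have key : A m m = - sg (σ m) ∧ P A m m = (if σ m = true then 1 else 0) := by
      cases hσm : σ m <;> simp [hσm, sg] at r1 ⊢ <;>
        rcases p1 with p1 | p1 <;> rw [p1] at r1 <;> omega
    obtain ⟨k2, k3⟩ := key
    refine ⟨?_, ?_, ?_, ?_, ?_, ?_⟩
    · intro i j
      simp only [Pi.sub_apply]
      rw [h.sym i j, E_symm]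
    · intro i j hij
      simp only [Pi.sub_apply] at hij
      by_cases hc : i = m ∧ j = m
      · exfalso
        apply hij
        rw [hc.1, hc.2, k2]
        simp [E]
      · have hE : E m m (- sg (σ m)) i j = 0 := by
          by_contra hne
          rcases E_ne _ hne with h' | h'
          · exact hc h'
          · exact hc h'
        rw [hE, sub_zero] at hij
        have := h.sup i j hij
        omega
    · intro i j
      rw [P_sub, P_D]
      by_cases h2 : i = m ∧ m < j
      · rw [if_pos h2, h2.1, P_const A m (m + 1) j h0' h2.2, e1, k2, k3]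
        cases σ m <;> simp [sg]
      · rw [if_neg h2, sub_zero]
        exact h.par _ _
    · intro i hi
      rw [P_sub, P_D, if_neg (fun hh => by omega), sub_zero]
      exact h.row i (by omega)
    · rw [P_sub, P_D, if_pos ⟨rfl, by omega⟩, e1, k2, k3]
      cases σ m <;> simp [sg]
    · intro i hi
      exact h.big i (by omega)

theorem diag_bwd_one {m : ℕ} {σ : St} {A : Mat} (h : Cond m m (Function.update σ m (!σ m)) A) :
    Full (m + 1) σ A := by
  have hmm : A m m = 0 := by
    by_contra hne
    rcases h.sup m m hne with h' | h' | h' <;> omega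
  refine ⟨h.sym, ?_, h.par, ?_, ?_⟩
  · intro i j hij
    rcases h.sup i j hij with h' | h' | h' <;> omega
  · intro i hi
    rcases Nat.lt_succ_iff_lt_or_eq.1 hi with h' | rfl
    · have := h.row i h'
      rwa [Function.update_of_ne h'.ne] at this
    · have := h.las
      rw [Function.update_self] at this
      rw [this]
      cases σ i <;> simp
  · intro i hi
    have := h.big i (by omega)
    rwa [Function.update_of_ne (by omega)] at this

theorem diag_bwd_two {m : ℕ} {σ : St} {B : Mat} (h : Cond m m σ B) :
    Full (m + 1) σ (B + E m m (- sg (σ m))) := by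
  have h0' : ∀ l, m ≤ l → B m l = 0 := by
    intro l hl
    by_contra hne
    rcases h.sup m l hne with h' | h' | h' <;> omega
  have r1 := h.las
  rw [P_const B m m (m + 1) h0' (by omega)] at r1
  refine ⟨?_, ?_, ?_, ?_, ?_⟩
  · intro i j
    simp only [Pi.add_apply]
    rw [h.sym i j, E_symm]
  · intro i j hij
    simp only [Pi.add_apply] at hij
    by_cases hc : E m m (- sg (σ m)) i j = 0
    · rw [hc, add_zero] at hij
      rcases h.sup i j hij with h' | h' | h' <;> omega
    · rcases E_ne _ hc with h' | h' <;> omega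
  · intro i j
    rw [P_add, P_D]
    by_cases h2 : i = m ∧ m < j
    · rw [if_pos h2, h2.1, P_const B m m j h0' h2.2.le, r1]
      cases σ m <;> simp [sg]
    · rw [if_neg h2, add_zero]
      exact h.par _ _
  · intro i hi
    rw [P_add, P_D]
    rcases Nat.lt_succ_iff_lt_or_eq.1 hi with h' | rfl
    · rw [if_neg (fun hh => by omega), add_zero]
      exact h.row i h'
    · rw [if_pos ⟨rfl, by omega⟩, P_const B i i (i + 1) h0' (by omega), r1]
      cases σ i <;> simp [sg]
  · intro i hi
    exact h.big i (by omega)

theorem diag_iff {m : ℕ} {σ : St} {A : Mat} :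
    Full (m + 1) σ A ↔ Cond m m (Function.update σ m (!σ m)) A ∨
      Cond m m σ (A - E m m (- sg (σ m))) := by
  refine ⟨diag_fwd, ?_⟩
  rintro (h | h)
  · exact diag_bwd_one h
  · have := diag_bwd_two h
    rwa [sub_add_cancel] at this

/-! ### The finite sets of matrices -/

open Classical in
/-- The matrices after the line `m` has crossed the lines `0, …, k - 1`. -/
noncomputable def rowsF (m : ℕ) (Φ : St → Finset Mat) : ℕ → St → Finset Mat
  | 0 => Φ
  | k + 1 => fun σ => rowsF m Φ k σ ∪ (if σ k = σ m then ∅ else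
      (rowsF m Φ k (fun x => σ (Equiv.swap k m x))).map (addRightEmbedding (E k m (sg (σ m)))))

open Classical in
/-- The matrices of size `m`. -/
noncomputable def psiF : ℕ → St → Finset Mat
  | 0 => fun σ => if σ = (fun _ => false) then {0} else ∅
  | m + 1 => fun σ => rowsF m (psiF m) m (Function.update σ m (!σ m)) ∪
      (rowsF m (psiF m) m σ).map (addRightEmbedding (E m m (- sg (σ m))))

theorem mem_map_add (s : Finset Mat) (X A : Mat) :
    A ∈ s.map (addRightEmbedding X) ↔ A - X ∈ s := by
  rw [Finset.mem_map]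
  constructor
  · rintro ⟨B, hB, rfl⟩
    simpa using hB
  · intro h
    exact ⟨A - X, h, by simp⟩

theorem full_zero (σ : St) (A : Mat) : Full 0 σ A ↔ (σ = (fun _ => false) ∧ A = 0) := by
  constructor
  · intro h
    refine ⟨?_, ?_⟩
    · funext i
      exact h.big i (Nat.zero_le _)
    · funext i j
      by_contra hne
      have := (h.sup i j hne).1
      omega
  · rintro ⟨rfl, rfl⟩
    refine ⟨fun i j => rfl, fun i j h => absurd rfl h, ?_, ?_, fun _ _ => rfl⟩
    · intro i j
      left
      simp [P]
    · intro i hi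
      omega

theorem mem_rowsF {m : ℕ} {Φ : St → Finset Mat} (hΦ : ∀ σ A, A ∈ Φ σ ↔ Full m σ A) :
    ∀ k, k ≤ m → ∀ σ A, A ∈ rowsF m Φ k σ ↔ Cond m k σ A := by
  classical
  intro k
  induction k with
  | zero =>
    intro _ σ A
    rw [← full_iff]
    exact hΦ σ A
  | succ k ih =>
    intro hk σ A
    have ih' := ih (by omega)
    rw [step_iff (by omega : k < m)]
    unfold rowsF
    by_cases h : σ k = σ m
    · rw [if_pos h, Finset.union_empty, ih']
      simp only [ne_eq, h, not_true_eq_false, false_and, or_false]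
    · rw [if_neg h, Finset.mem_union, mem_map_add, ih', ih']
      simp only [ne_eq, h, not_false_eq_true, true_and]

theorem mem_psiF : ∀ m σ A, A ∈ psiF m σ ↔ Full m σ A := by
  intro m
  induction m with
  | zero =>
    intro σ A
    rw [full_zero]
    by_cases h : σ = (fun _ => false)
    · simp [psiF, h]
    · simp [psiF, h]
  | succ m ih =>
    intro σ A
    rw [diag_iff]
    simp only [psiF, Finset.mem_union, mem_map_add, mem_rowsF ih m le_rfl]

/-! ### The weights -/

section weights

variable {R : Type*} [CommRing R]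

/-- The weight. -/
def wt (e : R) (m : ℕ) (A : Mat) : R := ∏ i ∈ Finset.range m, (if A i i = 0 then 1 else e)

theorem wt_add_E (e : R) {k m : ℕ} (hk : k < m) (a : ℤ) (A : Mat) :
    wt e m (A + E k m a) = wt e m A := by
  unfold wt
  refine Finset.prod_congr rfl fun i hi => ?_
  have : E k m a i i = 0 := by
    by_contra hne
    rcases E_ne _ hne with h' | h' <;> omega
  simp only [Pi.add_apply, this, add_zero]

theorem rows_eq (e : R) {m : ℕ} {φ : St → R} {Φ : St → Finset Mat}
    (hΦ : ∀ σ A, A ∈ Φ σ ↔ Full m σ A) (hφ : ∀ σ, φ σ = ∑ A ∈ Φ σ, wt e m A) :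
    ∀ k, k ≤ m → ∀ σ, rows (fun _ => (0 : R)) m φ k σ = ∑ A ∈ rowsF m Φ k σ, wt e m A := by
  classical
  intro k
  induction k with
  | zero =>
    intro _ σ
    exact hφ σ
  | succ k ih =>
    intro hk σ
    have hkm : k < m := hk
    have ih' := ih (by omega)
    by_cases h : σ k = σ m
    · simp only [rows, Rop, rowsF, if_pos h, Finset.union_empty, ih']
      ring
    · simp only [rows, Rop, rowsF, if_neg h, ih']
      rw [Finset.sum_union, Finset.sum_map]
      · simp only [addRightEmbedding_apply, wt_add_E e hkm]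
        cases hσ : σ m <;> simp [Q]
      · rw [Finset.disjoint_left]
        intro A hA hB
        rw [mem_map_add, mem_rowsF hΦ k hkm.le] at hB
        rw [mem_rowsF hΦ k hkm.le] at hA
        have h1 : A k m = 0 := by
          by_contra hne
          rcases hA.sup k m hne with h' | h' | h' <;> omega
        have h2 : (A - E k m (sg (σ m))) k m = 0 := by
          by_contra hne
          rcases hB.sup k m hne with h' | h' | h' <;> omega
        simp only [Pi.sub_apply, h1, E, and_self, true_or, if_true] at h2
        have := sg_ne (σ m)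
        omega

theorem psi_eq (e : R) : ∀ m σ, psi (fun _ => (0 : R)) (fun _ => e) m σ
    = ∑ A ∈ psiF m σ, wt e m A := by
  classical
  intro m
  induction m with
  | zero =>
    intro σ
    by_cases h : σ = (fun _ => false)
    · simp [psi, psiF, h, wt]
    · simp [psi, psiF, h]
  | succ m ih =>
    intro σ
    simp only [psi, psiF, Kop]
    rw [rows_eq e (mem_psiF m) ih m le_rfl, rows_eq e (mem_psiF m) ih m le_rfl]
    have hz : ∀ {τ : St} {A : Mat}, A ∈ rowsF m (psiF m) m τ → A m m = 0 := by
      intro τ A hA
      rw [mem_rowsF (mem_psiF m) m le_rfl] at hA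
      by_contra hne
      rcases hA.sup m m hne with h' | h' | h' <;> omega
    rw [Finset.sum_union, Finset.sum_map, add_comm]
    · congr 1
      · refine Finset.sum_congr rfl fun A hA => ?_
        rw [wt, wt, Finset.prod_range_succ, if_pos (hz hA), mul_one]
      · rw [show (if σ m = true then e * Q (0 : R) else e) = e by simp [Q], Finset.mul_sum]
        refine Finset.sum_congr rfl fun A hA => ?_
        simp only [addRightEmbedding_apply]
        rw [wt, wt, Finset.prod_range_succ]
        have h1 : ¬ (A + E m m (- sg (σ m))) m m = 0 := by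
          simp only [Pi.add_apply, hz hA, E, and_self, true_or, if_true, zero_add]
          have := sg_ne (σ m)
          omega
        rw [if_neg h1, mul_comm]
        congr 1
        refine Finset.prod_congr rfl fun i hi => ?_
        have : E m m (- sg (σ m)) i i = 0 := by
          rw [Finset.mem_range] at hi
          by_contra hne
          rcases E_ne _ hne with h' | h' <;> omega
        simp only [Pi.add_apply, this, add_zero]
    · rw [Finset.disjoint_left]
      intro A hA hB
      rw [mem_map_add] at hB
      have h1 := hz hA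
      have h2 := hz hB
      simp only [Pi.sub_apply, h1, E, and_self, true_or, if_true] at h2
      have := sg_ne (σ m)
      omega

end weights

/-! ### The count -/

/-- The number of nonzero diagonal entries. -/
def nd (m : ℕ) (A : Mat) : ℕ := ((Finset.range m).filter (fun i => ¬ A i i = 0)).card

theorem wt_pow {R : Type*} [CommRing R] (e : R) (m : ℕ) (A : Mat) : wt e m A = e ^ nd m A := by
  unfold wt nd
  rw [Finset.prod_ite, Finset.prod_const_one, one_mul, Finset.prod_const]

theorem eps_pow_snd (c : ℕ) : ((DualNumber.eps : DualNumber ℚ) ^ c).snd = if c = 1 then 1 else 0 := by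
  match c with
  | 0 => simp
  | 1 => simp
  | c + 2 =>
    have h : (DualNumber.eps : DualNumber ℚ) ^ (c + 2) = 0 := by
      rw [pow_add, DualNumber.eps_pow_two, mul_zero]
    rw [h, if_neg (by omega)]
    simp

theorem Z_snd (m : ℕ) : (Z (fun _ => (0 : DualNumber ℚ)) (fun _ => DualNumber.eps) m).snd =
    (((psiF m (fun _ => false)).filter (fun A => nd m A = 1)).card : ℚ) := by
  unfold Z
  rw [psi_eq, TrivSqZeroExt.snd_sum, Finset.card_filter]
  push_cast
  refine Finset.sum_congr rfl fun A _ => ?_
  rw [wt_pow, eps_pow_snd]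

theorem parity (A : Mat) (hA : ∀ i j, A i j = A j i) (m : ℕ) :
    ∃ z : ℤ, ∑ i ∈ Finset.range m, P A i m = ∑ i ∈ Finset.range m, A i i + 2 * z := by
  induction m with
  | zero => exact ⟨0, by simp⟩
  | succ m ih =>
    obtain ⟨z, hz⟩ := ih
    refine ⟨z + P A m m, ?_⟩
    rw [Finset.sum_range_succ, Finset.sum_range_succ (fun i => A i i)]
    have h1 : ∑ i ∈ Finset.range m, P A i (m + 1) = ∑ i ∈ Finset.range m, P A i m + P A m m := by
      simp only [P_succ, Finset.sum_add_distrib]
      congr 1
      exact Finset.sum_congr rfl fun i _ => hA i m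
    rw [h1, hz, P_succ]
    ring

theorem nd_parity {m : ℕ} {A : Mat} (h : Full m (fun _ => false) A) :
    ∃ z : ℤ, (nd m A : ℤ) = m + 2 * z := by
  obtain ⟨z, hz⟩ := parity A h.sym m
  have h1 : ∑ i ∈ Finset.range m, P A i m = m := by
    rw [Finset.sum_congr rfl (fun i hi => h.row i (Finset.mem_range.1 hi))]
    simp
  have h2 : ∀ i, ∃ y : ℤ, (if ¬ A i i = 0 then (1 : ℤ) else 0) = A i i + 2 * y := by
    intro i
    have e := P_succ A i i
    have p1 := h.par i i
    have p2 := h.par i (i + 1)
    have : A i i = 0 ∨ A i i = 1 ∨ A i i = -1 := by omega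
    rcases this with h' | h' | h'
    · exact ⟨0, by simp [h']⟩
    · exact ⟨0, by simp [h']⟩
    · exact ⟨1, by simp [h']⟩
  choose y hy using h2
  have h3 : (nd m A : ℤ) = ∑ i ∈ Finset.range m, A i i + 2 * ∑ i ∈ Finset.range m, y i := by
    unfold nd
    rw [Finset.card_filter]
    push_cast
    rw [Finset.mul_sum, ← Finset.sum_add_distrib]
    exact Finset.sum_congr rfl fun i _ => hy i
  refine ⟨∑ i ∈ Finset.range m, y i - z, ?_⟩
  rw [h3, ← h1, hz]
  ring

/-- Extension by zero. -/
def ext {M : ℕ} (A : Matrix (Fin M) (Fin M) ℤ) : Mat := fun i j =>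
  if h : i < M ∧ j < M then A ⟨i, h.1⟩ ⟨j, h.2⟩ else 0

theorem ext_apply {M : ℕ} (A : Matrix (Fin M) (Fin M) ℤ) (i j : Fin M) :
    ext A i j = A i j := by
  unfold ext
  rw [dif_pos ⟨i.2, j.2⟩]

theorem sum_Iic {M : ℕ} (g : ℕ → ℤ) (k : Fin M) :
    ∑ j ∈ Finset.Iic k, g j = ∑ l ∈ Finset.range ((k : ℕ) + 1), g l := by
  have h1 : ∑ j ∈ Finset.Iic k, g j = ∑ x ∈ (Finset.Iic k).map Fin.valEmbedding, g x := by
    rw [Finset.sum_map]
    rfl
  rw [h1, Fin.map_valEmbedding_Iic]
  refine Finset.sum_congr ?_ fun _ _ => rfl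
  ext x
  simp

theorem P_ext {M : ℕ} (A : Matrix (Fin M) (Fin M) ℤ) (i k : Fin M) :
    P (ext A) i (k + 1) = ∑ j ∈ Finset.Iic k, A i j := by
  unfold P
  rw [← sum_Iic (fun l => ext A i l) k]
  exact Finset.sum_congr rfl fun j _ => ext_apply A i j

theorem P_ext_full {M : ℕ} (A : Matrix (Fin M) (Fin M) ℤ) (i : Fin M) :
    P (ext A) i M = ∑ j, A i j := by
  unfold P
  rw [← Fin.sum_univ_eq_sum_range (fun l => ext A i l) M]
  exact Finset.sum_congr rfl fun j _ => ext_apply A i j

/-- The conditions on the matrices. -/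
def Good (n : ℕ) (A : Matrix (Fin (2 * n + 1)) (Fin (2 * n + 1)) ℤ) : Prop :=
  (∀ i j, A i j = -1 ∨ A i j = 0 ∨ A i j = 1) ∧
          (∀ i k, (∑ j ∈ Finset.Iic k, A i j) = 0 ∨ (∑ j ∈ Finset.Iic k, A i j) = 1) ∧
          (∀ i, (∑ j, A i j) = 1) ∧
          (∀ j k, (∑ i ∈ Finset.Iic k, A i j) = 0 ∨ (∑ i ∈ Finset.Iic k, A i j) = 1) ∧
          (∀ j, (∑ i, A i j) = 1) ∧
          (∀ i j, A i j = A j i) ∧
          (∃ d : Fin (2 * n + 1), ∀ i, i ≠ d → A i i = 0)

theorem nd_le {n : ℕ} {A : Matrix (Fin (2 * n + 1)) (Fin (2 * n + 1)) ℤ} :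
    (∃ d : Fin (2 * n + 1), ∀ i, i ≠ d → A i i = 0) ↔ nd (2 * n + 1) (ext A) ≤ 1 := by
  unfold nd
  rw [Finset.card_le_one]
  constructor
  · rintro ⟨d, hd⟩ a ha b hb
    rw [Finset.mem_filter, Finset.mem_range] at ha hb
    have h1 : a = d := by
      by_contra hne
      apply ha.2
      have := ext_apply A ⟨a, ha.1⟩ ⟨a, ha.1⟩
      simp only at this
      rw [this]
      exact hd _ (fun hh => hne (by rw [← hh]))
    have h2 : b = d := by
      by_contra hne
      apply hb.2
      have := ext_apply A ⟨b, hb.1⟩ ⟨b, hb.1⟩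
      simp only at this
      rw [this]
      exact hd _ (fun hh => hne (by rw [← hh]))
    rw [h1, h2]
  · intro h
    by_cases hex : ∃ d : Fin (2 * n + 1), A d d ≠ 0
    · obtain ⟨d, hd⟩ := hex
      refine ⟨d, fun i hi => ?_⟩
      by_contra hne
      apply hi
      apply Fin.ext
      apply h
      · rw [Finset.mem_filter, Finset.mem_range]
        refine ⟨i.2, ?_⟩
        rwa [ext_apply]
      · rw [Finset.mem_filter, Finset.mem_range]
        refine ⟨d.2, ?_⟩
        rwa [ext_apply]
    · push Not at hex
      exact ⟨0, fun i _ => hex i⟩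

theorem good_ext {n : ℕ} {A : Matrix (Fin (2 * n + 1)) (Fin (2 * n + 1)) ℤ} (h : Good n A) :
    ext A ∈ (psiF (2 * n + 1) (fun _ => false)).filter (fun A => nd (2 * n + 1) A = 1) := by
  obtain ⟨h1, h2, h3, h4, h5, h6, h7⟩ := h
  rw [Finset.mem_filter, mem_psiF]
  have hsup : ∀ i j, ext A i j ≠ 0 → (i < 2 * n + 1 ∧ j < 2 * n + 1) := by
    intro i j hij
    by_contra hc
    apply hij
    unfold ext
    rw [dif_neg hc]
  have hF : Full (2 * n + 1) (fun _ => false) (ext A) := by
    refine ⟨?_, hsup, ?_, ?_, fun _ _ => rfl⟩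
    · intro i j
      unfold ext
      by_cases hc : i < 2 * n + 1 ∧ j < 2 * n + 1
      · rw [dif_pos hc, dif_pos ⟨hc.2, hc.1⟩]
        exact h6 _ _
      · rw [dif_neg hc, dif_neg (fun hh => hc ⟨hh.2, hh.1⟩)]
    · intro i j
      by_cases hi : i < 2 * n + 1
      · rcases Nat.eq_zero_or_pos j with rfl | hj
        · left; exact P_zero _ _
        · by_cases hj2 : j ≤ 2 * n + 1
          · have := P_ext A ⟨i, hi⟩ ⟨j - 1, by omega⟩
            simp only [Nat.sub_add_cancel hj] at this
            rw [this]
            exact h2 _ _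
          · right
            rw [P_const (ext A) i (2 * n + 1) j ?_ (by omega)]
            · exact (P_ext_full A ⟨i, hi⟩).trans (h3 _)
            · intro l hl
              by_contra hne
              have := (hsup _ _ hne).2
              omega
      · left
        rw [P_const (ext A) i 0 j ?_ (Nat.zero_le _), P_zero]
        intro l _
        by_contra hne
        exact hi (hsup _ _ hne).1
    · intro i hi
      simp only [Bool.false_eq_true, if_false]
      exact (P_ext_full A ⟨i, hi⟩).trans (h3 _)
  refine ⟨hF, ?_⟩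
  have h8 := nd_le.1 h7
  obtain ⟨z, hz⟩ := nd_parity hF
  push_cast at hz
  omega

theorem ext_good {n : ℕ} {B : Mat}
    (hB : B ∈ (psiF (2 * n + 1) (fun _ => false)).filter (fun A => nd (2 * n + 1) A = 1)) :
    ∃ A : Matrix (Fin (2 * n + 1)) (Fin (2 * n + 1)) ℤ, Good n A ∧ ext A = B := by
  rw [Finset.mem_filter, mem_psiF] at hB
  obtain ⟨hF, hnd⟩ := hB
  let A : Matrix (Fin (2 * n + 1)) (Fin (2 * n + 1)) ℤ := Matrix.of fun i j => B i j
  have hext : ext A = B := by
    funext i j
    unfold ext
    by_cases hc : i < 2 * n + 1 ∧ j < 2 * n + 1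
    · rw [dif_pos hc]
      rfl
    · rw [dif_neg hc]
      by_contra hne
      exact hc (hF.sup i j (fun hh => hne hh.symm))
  have hsym : ∀ i j, A i j = A j i := fun i j => hF.sym _ _
  have hpar : ∀ i k, (∑ j ∈ Finset.Iic k, A i j) = 0 ∨ (∑ j ∈ Finset.Iic k, A i j) = 1 := by
    intro i k
    rw [← P_ext, hext]
    exact hF.par _ _
  have hrow : ∀ i, (∑ j, A i j) = 1 := by
    intro i
    rw [← P_ext_full, hext]
    have := hF.row i i.2
    simpa using this
  refine ⟨A, ⟨?_, hpar, hrow, ?_, ?_, hsym, ?_⟩, hext⟩
  · intro i j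
    have e := P_succ B i j
    have p1 := hF.par i j
    have p2 := hF.par i (j + 1)
    have : A i j = B i j := rfl
    rw [this]
    omega
  · intro j k
    have : ∑ i ∈ Finset.Iic k, A i j = ∑ i ∈ Finset.Iic k, A j i :=
      Finset.sum_congr rfl fun i _ => hsym i j
    rw [this]
    exact hpar j k
  · intro j
    have : ∑ i, A i j = ∑ i, A j i := Finset.sum_congr rfl fun i _ => hsym i j
    rw [this]
    exact hrow j
  · rw [nd_le, hext, hnd]

theorem s_cnt : S_CNT := by
  intro n
  rw [Z_snd]
  congr 1
  symm
  have hbij : Function.Bijective (fun A : {A : Matrix (Fin (2 * n + 1)) (Fin (2 * n + 1)) ℤ //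
      Good n A} => (⟨ext A.1, good_ext A.2⟩ :
      {B // B ∈ (psiF (2 * n + 1) (fun _ => false)).filter (fun A => nd (2 * n + 1) A = 1)})) := by
    constructor
    · intro A B h
      have h' : ext A.1 = ext B.1 := congrArg Subtype.val h
      apply Subtype.ext
      ext i j
      rw [← ext_apply A.1, ← ext_apply B.1, h']
    · rintro ⟨B, hB⟩
      obtain ⟨A, hA, hAB⟩ := ext_good hB
      exact ⟨⟨A, hA⟩, Subtype.ext hAB⟩
  have h1 := Nat.card_eq_of_bijective _ hbij
  have h2 : ∀ F : Finset Mat, Nat.card {B // B ∈ F} = F.card := by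
    intro F
    rw [Nat.card_eq_fintype_card, Fintype.card_coe]
  exact h1.trans (h2 _)

end Pool.Agent.L7h11.OS
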